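import Pool.Agent.helper56.P3.Defs2

/-!
# P3, module Ld: the variational step
-/

set_option linter.all false

namespace Pool.Agent.helper56.P3

open Finset Pool.Agent.helper56.Per

section Aux

variable {K : Type*} [Field K] {Γ : Type*} [LinearOrderedCommGroupWithZero Γ] (v : Valuation K Γ)

theorem Ld_sum_lt {ρ : Γ} (hρ : 0 < ρ) {ι : Type*} (s : Finset ι) (f : ι → K)
    (h : ∀ i ∈ s, v (f i) < ρ) : v (∑ i ∈ s, f i) < ρ := by
  classical
  induction s using Finset.induction_on with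
  | empty => simpa using hρ
  | insert a s ha ih =>
    rw [Finset.sum_insert ha]
    exact v.map_add_lt (h a (Finset.mem_insert_self _ _))
      (ih fun i hi => h i (Finset.mem_insert_of_mem hi))

theorem Ld_sum_le {ρ : Γ} {ι : Type*} (s : Finset ι) (f : ι → K)
    (h : ∀ i ∈ s, v (f i) ≤ ρ) : v (∑ i ∈ s, f i) ≤ ρ := by
  classical
  induction s using Finset.induction_on with
  | empty => simp
  | insert a s ha ih =>
    rw [Finset.sum_insert ha]
    exact v.map_add_le (h a (Finset.mem_insert_self _ _))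
      (ih fun i hi => h i (Finset.mem_insert_of_mem hi))

/-- product of two elements of size `≤ ρ` is `< ρ` -/
theorem Ld_mul_lt {ρ : Γ} (hρ : 0 < ρ) (hρ1 : ρ < 1) {x y : K} (hx : v x ≤ ρ) (hy : v y ≤ ρ) :
    v (x * y) < ρ := by
  rw [map_mul]
  calc v x * v y ≤ ρ * ρ := mul_le_mul' hx hy
    _ < ρ := by
      have := mul_lt_mul_of_pos_left hρ1 hρ
      simpa using this

theorem Ld_mul_lt' {ρ : Γ} {x y : K} (hx : v x ≤ 1) (hy : v y < ρ) :
    v (x * y) < ρ := by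
  rw [map_mul]
  exact lt_of_le_of_lt (mul_le_of_le_one_left' hx) hy

theorem Ld_mul_le' {ρ : Γ} {x y : K} (hx : v x ≤ 1) (hy : v y ≤ ρ) :
    v (x * y) ≤ ρ := by
  rw [map_mul]
  exact le_trans (mul_le_of_le_one_left' hx) hy

/-- `∏ (1 + u) = 1 + ∑ u` up to second order -/
theorem Ld_prod {ρ : Γ} (hρ : 0 < ρ) (hρ1 : ρ < 1) {ι : Type*} (s : Finset ι) (u : ι → K)
    (h : ∀ i ∈ s, v (u i) ≤ ρ) : v (∏ i ∈ s, (1 + u i) - 1 - ∑ i ∈ s, u i) < ρ := by
  classical
  induction s using Finset.induction_on with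
  | empty => simpa using hρ
  | insert a s ha ih =>
    rw [Finset.sum_insert ha, Finset.prod_insert ha]
    have h1 := ih fun i hi => h i (Finset.mem_insert_of_mem hi)
    have h2 : v (∑ i ∈ s, u i) ≤ ρ :=
      Ld_sum_le v s u fun i hi => h i (Finset.mem_insert_of_mem hi)
    have e : (1 + u a) * ∏ i ∈ s, (1 + u i) - 1 - (u a + ∑ i ∈ s, u i)
        = (∏ i ∈ s, (1 + u i) - 1 - ∑ i ∈ s, u i)
          + u a * ((∏ i ∈ s, (1 + u i) - 1 - ∑ i ∈ s, u i) + ∑ i ∈ s, u i) := by ring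
    rw [e]
    refine v.map_add_lt h1 (Ld_mul_lt v hρ hρ1 (h a (Finset.mem_insert_self _ _)) ?_)
    exact v.map_add_le h1.le h2

end Aux

section L

variable {k K : Type*} [Field k] [Field K] [Algebra k K]
  {P : ValuationSubring K} {b c τ β S : K} {n m q : ℕ}

/-- the variational step -/
theorem L_var [CharZero k] (hP : IsPl k P) {p : ℕ} (hp : 0 < p) {x e h g : ℕ → k} {η lam : k}
    (t0 : τ ≠ 0) (vt : P.valuation τ < 1) (hS : P.valuation (S + 2) < 1)
    (x0 : ∀ j, x j ≠ 0) (x1 : ∀ j, x j ^ 2 ≠ 1) (xs : ∀ j, x (j + 1) = x j + (x j)⁻¹ - 2)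
    (xp : ∀ j, x (j + p) = x j) (ep : ∀ j, e (j + p) = e j)
    (es : ∀ j, (1 + x j) ^ 2 * e (j + 1) = (x j ^ 2 - 1) * e j + 1)
    (hp' : ∀ j, h (j + p) = h j) (gp : ∀ j, g (j + p) = g j)
    (hlam : lam = ∏ j ∈ range p, (1 - (x j ^ 2)⁻¹)) (hlam1 : lam ≠ 1)
    (hA : ∑ j ∈ range p, e j / x j ≠ 0)
    (hη : η * (∑ j ∈ range p, (-2 * e j / x j))
      + ∑ j ∈ range p, (-2 * e (j + 1) / x (j + 1)) * h j + ∑ j ∈ range p, g j = 0)
    {Y M : ℕ → K} (Yp : ∀ j, Y (j + p) = Y j)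
    (Yx : ∀ j, P.valuation (Y j - algebraMap k K (x j)) < 1)
    (Ys : ∀ j, P.valuation (Y (j + 1) - (Y j + (Y j)⁻¹ + S + τ ^ 2 * algebraMap k K (h j)))
      < P.valuation τ ^ 2)
    (Ms : ∀ j, P.valuation (M j - (1 - (Y j ^ 2)⁻¹) * (1 + τ ^ 2 * algebraMap k K (g j)))
      < P.valuation τ ^ 2)
    (Mp : ∏ j ∈ range p, M j = algebraMap k K lam) :
    P.valuation (S + 2 - τ ^ 2 * algebraMap k K η) < P.valuation τ ^ 2 := by
  set v := P.valuation with hv
  let ι : k →+* K := algebraMap k K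
  have hι : ∀ z : k, algebraMap k K z = ι z := fun _ => rfl
  simp only [hι] at *
  have vι : ∀ z : k, z ≠ 0 → v (ι z) = 1 := hP.cst
  have vι' : ∀ z : k, v (ι z) ≤ 1 := by
    intro z
    by_cases hz : z = 0
    · rw [hz, map_zero, map_zero]; exact zero_le_one
    · exact (vι z hz).le
  have hvτ : v τ ≠ 0 := (Valuation.ne_zero_iff _).2 t0
  have hτpos : 0 < v τ ^ 2 := pow_pos (zero_lt_iff.2 hvτ) 2
  have hτ1 : v τ ^ 2 < 1 := pow_lt_one₀ zero_le vt (by norm_num)
  -- the threshold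
  obtain ⟨j0, hj0, hj0max⟩ := Finset.exists_max_image (range p) (fun j => v (Y j - ι (x j)))
    ⟨0, mem_range.2 hp⟩
  have hmaxall : ∀ j, v (Y j - ι (x j)) ≤ v (Y j0 - ι (x j0)) := by
    intro j
    have hmod : ∀ j, Y j = Y (j % p) ∧ x j = x (j % p) := by
      intro j
      have h1 : ∀ t r, Y (r + p * t) = Y r ∧ x (r + p * t) = x r := by
        intro t
        induction t with
        | zero => intro r; simp
        | succ t ih =>
          intro r
          have e1 : r + p * (t + 1) = (r + p * t) + p := by ring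
          rw [e1, Yp, xp]
          exact ih r
      have h2 := h1 (j / p) (j % p)
      rw [Nat.mod_add_div] at h2
      exact h2
    rw [(hmod j).1, (hmod j).2]
    exact hj0max _ (mem_range.2 (Nat.mod_lt _ hp))
  set ρ := max (max (v τ ^ 2) (v (S + 2))) (v (Y j0 - ι (x j0))) with hρdef
  have hρτ : v τ ^ 2 ≤ ρ := (le_max_left _ _).trans (le_max_left _ _)
  have hρη : v (S + 2) ≤ ρ := (le_max_right _ _).trans (le_max_left _ _)
  have hρξ : ∀ j, v (Y j - ι (x j)) ≤ ρ := fun j => (hmaxall j).trans (le_max_right _ _)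
  have hρ0 : 0 < ρ := lt_of_lt_of_le hτpos hρτ
  have hρ1 : ρ < 1 := max_lt (max_lt hτ1 hS) (Yx j0)
  -- sizes
  have vx : ∀ j, v (ι (x j)) = 1 := fun j => vι _ (x0 j)
  have vY : ∀ j, v (Y j) = 1 := by
    intro j
    have e1 : Y j = ι (x j) + (Y j - ι (x j)) := by ring
    rw [e1, Valuation.map_add_eq_of_lt_left _ (by rw [vx]; exact Yx j), vx]
  have Y0 : ∀ j, Y j ≠ 0 := fun j => (Valuation.ne_zero_iff v).1 (by rw [vY]; exact one_ne_zero)
  have X0 : ∀ j, ι (x j) ≠ 0 := fun j => (Valuation.ne_zero_iff v).1 (by rw [vx]; exact one_ne_zero)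
  set ξ : ℕ → K := fun j => Y j - ι (x j) with hξ
  have hξle : ∀ j, v (ξ j) ≤ ρ := hρξ
  let Q : ℕ → k := fun j => 1 - (x j ^ 2)⁻¹
  have hQ0 : ∀ j, Q j ≠ 0 := by
    intro j hj
    have h1 : (x j ^ 2)⁻¹ = 1 := (sub_eq_zero.1 hj).symm
    exact x1 j (inv_eq_one.1 h1)
  have hιQ : ∀ j, ι (Q j) = 1 - (ι (x j) ^ 2)⁻¹ := by
    intro j
    simp [Q]
  have vτ2 : ∀ z : k, v (τ ^ 2 * ι z) ≤ ρ := by
    intro z
    rw [mul_comm]
    exact Ld_mul_le' v (vι' z) (by rw [map_pow]; exact hρτ)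
  have vYinv : ∀ j, v ((Y j)⁻¹) = 1 := fun j => by rw [map_inv₀, vY, inv_one]
  have vXinv : ∀ j, v ((ι (x j))⁻¹) = 1 := fun j => by rw [map_inv₀, vx, inv_one]
  -- first order recursion
  have key1 : ∀ j, v (ξ (j + 1) - (ι (Q j) * ξ j + (S + 2) + τ ^ 2 * ι (h j))) < ρ := by
    intro j
    have e1 : ξ (j + 1) - (ι (Q j) * ξ j + (S + 2) + τ ^ 2 * ι (h j))
        = (Y (j + 1) - (Y j + (Y j)⁻¹ + S + τ ^ 2 * ι (h j)))
          + ((ι (x j))⁻¹ ^ 2 * (Y j)⁻¹) * (ξ j * ξ j) := by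
      have hx1 : ι (x (j + 1)) = ι (x j) + (ι (x j))⁻¹ - 2 := by
        rw [xs j, map_sub, map_add, map_inv₀, map_ofNat]
      rw [hιQ]
      simp only [hξ]
      rw [hx1]
      have := Y0 j
      have := X0 j
      field_simp
      ring
    rw [e1]
    refine v.map_add_lt ((Ys j).trans_le hρτ) (Ld_mul_lt' v ?_ (Ld_mul_lt v hρ0 hρ1 (hξle j) (hξle j)))
    rw [map_mul, map_pow, vXinv, vYinv]
    simp
  -- the multiplier
  let N : ℕ → k := fun j => 2 / (x j * (x j ^ 2 - 1))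
  have hx21 : ∀ j, x j ^ 2 - 1 ≠ 0 := fun j => sub_ne_zero.2 (x1 j)
  have hNQ : ∀ j, N j * Q j = 2 / x j ^ 3 := by
    intro j
    have := x0 j
    have := hx21 j
    simp only [N, Q]
    field_simp
  let u : ℕ → K := fun j => M j * (ι (Q j))⁻¹ - 1
  have hιQ0 : ∀ j, ι (Q j) ≠ 0 := fun j => (_root_.map_ne_zero ι).2 (hQ0 j)
  have vQinv : ∀ j, v ((ι (Q j))⁻¹) ≤ 1 := fun j => by
    rw [map_inv₀, vι _ (hQ0 j), inv_one]
  have hqY : ∀ j, v ((1 - (Y j ^ 2)⁻¹) - ι (Q j) - ι (2 / x j ^ 3) * ξ j) < ρ := by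
    intro j
    have e1 : (1 - (Y j ^ 2)⁻¹) - ι (Q j) - ι (2 / x j ^ 3) * ξ j
        = (-(3 * ι (x j) + 2 * ξ j) * ((ι (x j))⁻¹ ^ 3 * (Y j)⁻¹ ^ 2)) * (ξ j * ξ j) := by
      rw [hιQ]
      simp only [hξ, map_div₀, map_pow, map_ofNat]
      have := Y0 j
      have := X0 j
      field_simp
      ring
    rw [e1]
    refine Ld_mul_lt' v ?_ (Ld_mul_lt v hρ0 hρ1 (hξle j) (hξle j))
    rw [map_mul, map_mul, map_pow, map_pow, vXinv, vYinv, Valuation.map_neg]
    simp only [one_pow, mul_one]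
    refine v.map_add_le ?_ ?_
    · have h3 := vι' 3
      rw [map_ofNat] at h3
      rw [map_mul, vx, mul_one]
      exact h3
    · have h3 := vι' 2
      rw [map_ofNat] at h3
      rw [map_mul]
      exact mul_le_one' h3 ((hξle j).trans hρ1.le)
  have hqYle : ∀ j, v ((1 - (Y j ^ 2)⁻¹) - ι (Q j)) ≤ ρ := by
    intro j
    have e1 : (1 - (Y j ^ 2)⁻¹) - ι (Q j)
        = ((1 - (Y j ^ 2)⁻¹) - ι (Q j) - ι (2 / x j ^ 3) * ξ j) + ι (2 / x j ^ 3) * ξ j := by ring
    rw [e1]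
    exact v.map_add_le (hqY j).le (Ld_mul_le' v (vι' _) (hξle j))
  have hu : ∀ j, v (u j - (ι (N j) * ξ j + τ ^ 2 * ι (g j))) < ρ := by
    intro j
    have e1 : u j - (ι (N j) * ξ j + τ ^ 2 * ι (g j))
        = (ι (Q j))⁻¹ * ((M j - (1 - (Y j ^ 2)⁻¹) * (1 + τ ^ 2 * ι (g j)))
          + ((1 - (Y j ^ 2)⁻¹) - ι (Q j) - ι (2 / x j ^ 3) * ξ j)
          + ((1 - (Y j ^ 2)⁻¹) - ι (Q j)) * (τ ^ 2 * ι (g j))) := by
      have hN : ι (N j) * ι (Q j) = ι (2 / x j ^ 3) := by rw [← map_mul, hNQ]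
      rw [← hN]
      simp only [u]
      have := hιQ0 j
      field_simp
      ring
    rw [e1]
    refine Ld_mul_lt' v (vQinv j) (v.map_add_lt (v.map_add_lt ((Ms j).trans_le hρτ) (hqY j)) ?_)
    exact Ld_mul_lt v hρ0 hρ1 (hqYle j) (vτ2 _)
  have hule : ∀ j, v (u j) ≤ ρ := by
    intro j
    have e1 : u j = (u j - (ι (N j) * ξ j + τ ^ 2 * ι (g j)))
        + (ι (N j) * ξ j + τ ^ 2 * ι (g j)) := by ring
    rw [e1]
    exact v.map_add_le (hu j).le (v.map_add_le (Ld_mul_le' v (vι' _) (hξle j)) (vτ2 _))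
  have hprod : ∏ j ∈ range p, (1 + u j) = 1 := by
    have h1 : ∀ j ∈ range p, 1 + u j = M j * (ι (Q j))⁻¹ := fun j _ => by simp [u]
    rw [Finset.prod_congr rfl h1, Finset.prod_mul_distrib, Finset.prod_inv_distrib, Mp, hlam,
      map_prod]
    exact mul_inv_cancel₀ (Finset.prod_ne_zero_iff.2 fun j _ => hιQ0 j)
  have hsumu : v (∑ j ∈ range p, u j) < ρ := by
    have h1 := Ld_prod v hρ0 hρ1 (range p) u fun j _ => hule j
    rw [hprod, sub_self, zero_sub, Valuation.map_neg] at h1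
    exact h1
  have key2 : v (∑ j ∈ range p, (ι (N j) * ξ j + τ ^ 2 * ι (g j))) < ρ := by
    have e1 : ∑ j ∈ range p, (ι (N j) * ξ j + τ ^ 2 * ι (g j))
        = ∑ j ∈ range p, u j - ∑ j ∈ range p, (u j - (ι (N j) * ξ j + τ ^ 2 * ι (g j))) := by
      rw [← Finset.sum_sub_distrib]
      exact Finset.sum_congr rfl fun j _ => by ring
    rw [e1]
    exact Valuation.map_sub_lt v hsumu (Ld_sum_lt v hρ0 _ _ fun j _ => hu j)
  -- the adjoint sequence
  let A : ℕ → k := fun j => -2 * e j / x j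
  have hAp : A p = A 0 := by
    have h1 := ep 0
    have h2 := xp 0
    rw [zero_add] at h1 h2
    simp only [A, h1, h2]
  have hAs : ∀ j, A j = N j + A (j + 1) * Q j := by
    intro j
    have hx := x0 j
    have h21 := hx21 j
    have hm1 : x j - 1 ≠ 0 := by
      intro h0
      apply h21
      have : x j = 1 := sub_eq_zero.1 h0
      rw [this]; ring
    have hm2 : x j + 1 ≠ 0 := by
      intro h0
      apply h21
      have : x j = -1 := eq_neg_of_add_eq_zero_left h0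
      rw [this]; ring
    have hxs : x (j + 1) = (x j - 1) ^ 2 / x j := by
      rw [xs j]; field_simp; ring
    have hes := es j
    have he1 : e (j + 1) = ((x j ^ 2 - 1) * e j + 1) / (1 + x j) ^ 2 := by
      rw [eq_div_iff (pow_ne_zero 2 (by rwa [add_comm]))]
      rw [← hes]; ring
    have hm3 : 1 + x j ≠ 0 := by rwa [add_comm]
    have hf : x j ^ 2 - 1 = (x j - 1) * (x j + 1) := by ring
    simp only [A, N, Q]
    rw [hxs, he1, hf]
    field_simp
    ring
  have hshift : ∑ j ∈ range p, A (j + 1) = ∑ j ∈ range p, A j := by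
    have h1 := Finset.sum_range_succ' A p
    have h2 := Finset.sum_range_succ A p
    rw [h1, hAp] at h2
    exact add_right_cancel h2
  have hξp : ξ p = ξ 0 := by
    have h1 := Yp 0
    have h2 := xp 0
    rw [zero_add] at h1 h2
    simp only [hξ, h1, h2]
  have hshift2 : ∑ j ∈ range p, ι (A (j + 1)) * ξ (j + 1) = ∑ j ∈ range p, ι (A j) * ξ j := by
    have h1 := Finset.sum_range_succ' (fun j => ι (A j) * ξ j) p
    have h2 := Finset.sum_range_succ (fun j => ι (A j) * ξ j) p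
    rw [h1, hAp, hξp] at h2
    exact add_right_cancel h2
  have key3 : v (∑ j ∈ range p,
      ι (A (j + 1)) * (ξ (j + 1) - (ι (Q j) * ξ j + (S + 2) + τ ^ 2 * ι (h j)))) < ρ :=
    Ld_sum_lt v hρ0 _ _ fun j _ => Ld_mul_lt' v (vι' _) (key1 j)
  have key4 : v ((S + 2 - τ ^ 2 * ι η) * ι (∑ j ∈ range p, A j)) < ρ := by
    have hη' : ι η * ι (∑ j ∈ range p, A j) + ι (∑ j ∈ range p, A (j + 1) * h j)
        + ι (∑ j ∈ range p, g j) = 0 := by
      rw [← map_mul, ← map_add, ← map_add, ← map_zero ι]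
      exact congrArg ι hη
    have e1 : (S + 2 - τ ^ 2 * ι η) * ι (∑ j ∈ range p, A j)
        = ∑ j ∈ range p, (ι (N j) * ξ j + τ ^ 2 * ι (g j))
          - ∑ j ∈ range p,
            ι (A (j + 1)) * (ξ (j + 1) - (ι (Q j) * ξ j + (S + 2) + τ ^ 2 * ι (h j))) := by
      have hs1 : ∑ j ∈ range p,
            ι (A (j + 1)) * (ξ (j + 1) - (ι (Q j) * ξ j + (S + 2) + τ ^ 2 * ι (h j)))
          = ∑ j ∈ range p, ι (A (j + 1)) * ξ (j + 1)
            - ∑ j ∈ range p, (ι (A (j + 1)) * ι (Q j)) * ξ j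
            - (S + 2) * ι (∑ j ∈ range p, A (j + 1))
            - τ ^ 2 * ι (∑ j ∈ range p, A (j + 1) * h j) := by
        rw [map_sum, map_sum, Finset.mul_sum, Finset.mul_sum, ← Finset.sum_sub_distrib,
          ← Finset.sum_sub_distrib, ← Finset.sum_sub_distrib]
        refine Finset.sum_congr rfl fun j _ => ?_
        rw [map_mul]
        ring
      have hs2 : ∑ j ∈ range p, (ι (N j) * ξ j + τ ^ 2 * ι (g j))
          = ∑ j ∈ range p, ι (N j) * ξ j + τ ^ 2 * ι (∑ j ∈ range p, g j) := by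
        rw [Finset.sum_add_distrib, map_sum, Finset.mul_sum]
      have hs3 : ∑ j ∈ range p, ι (A j) * ξ j = ∑ j ∈ range p, ι (N j) * ξ j
          + ∑ j ∈ range p, (ι (A (j + 1)) * ι (Q j)) * ξ j := by
        rw [← Finset.sum_add_distrib]
        refine Finset.sum_congr rfl fun j _ => ?_
        rw [hAs j, map_add, map_mul]
        ring
      rw [hs1, hs2, hshift2, hs3, hshift]
      linear_combination (-(τ ^ 2)) * hη'
    rw [e1]
    exact Valuation.map_sub_lt v key2 key3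
  have hA0 : ∑ j ∈ range p, A j ≠ 0 := by
    have e1 : ∑ j ∈ range p, A j = -2 * ∑ j ∈ range p, e j / x j := by
      rw [Finset.mul_sum]
      exact Finset.sum_congr rfl fun j _ => by simp only [A]; ring
    rw [e1]
    exact mul_ne_zero (by norm_num) hA
  have key5 : v (S + 2 - τ ^ 2 * ι η) < ρ := by
    rw [map_mul, vι _ hA0, mul_one] at key4
    exact key4
  -- the threshold is `|τ|²`
  have hfin : ρ ≤ v τ ^ 2 := by
    by_contra hcon
    rw [not_le] at hcon
    have vτ3 : ∀ z : k, v (τ ^ 2 * ι z) < ρ := by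
      intro z
      rw [mul_comm]
      exact Ld_mul_lt' v (vι' z) (by rw [map_pow]; exact hcon)
    have hη2 : v (S + 2) < ρ := by
      have e1 : S + 2 = (S + 2 - τ ^ 2 * ι η) + τ ^ 2 * ι η := by ring
      rw [e1]
      exact v.map_add_lt key5 (vτ3 _)
    have hrec : ∀ j, v (ξ (j + 1) - ι (Q j) * ξ j) < ρ := by
      intro j
      have e1 : ξ (j + 1) - ι (Q j) * ξ j
          = (ξ (j + 1) - (ι (Q j) * ξ j + (S + 2) + τ ^ 2 * ι (h j)))
            + ((S + 2) + τ ^ 2 * ι (h j)) := by ring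
      rw [e1]
      exact v.map_add_lt (key1 j) (v.map_add_lt hη2 (vτ3 _))
    have hind : ∀ l, v (ξ l - ι (∏ i ∈ range l, Q i) * ξ 0) < ρ := by
      intro l
      induction l with
      | zero => simpa using hρ0
      | succ l ih =>
        have e1 : ξ (l + 1) - ι (∏ i ∈ range (l + 1), Q i) * ξ 0
            = (ξ (l + 1) - ι (Q l) * ξ l)
              + ι (Q l) * (ξ l - ι (∏ i ∈ range l, Q i) * ξ 0) := by
          rw [Finset.prod_range_succ, map_mul]
          ring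
        rw [e1]
        exact v.map_add_lt (hrec l) (Ld_mul_lt' v (vι' _) ih)
    have h0 : v (ξ 0) < ρ := by
      have h1 := hind p
      have h2 : ξ p - ι (∏ i ∈ range p, Q i) * ξ 0 = ι (1 - lam) * ξ 0 := by
        rw [hξp, hlam, map_sub, map_one]
        ring
      rw [h2, map_mul, vι _ (sub_ne_zero.2 (Ne.symm hlam1)), one_mul] at h1
      exact h1
    have hall : ∀ l, v (ξ l) < ρ := by
      intro l
      have e1 : ξ l = (ξ l - ι (∏ i ∈ range l, Q i) * ξ 0) + ι (∏ i ∈ range l, Q i) * ξ 0 := by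
        ring
      rw [e1]
      exact v.map_add_lt (hind l) (Ld_mul_lt' v (vι' _) h0)
    have hlt : ρ < ρ := by
      conv_lhs => rw [hρdef]
      exact max_lt (max_lt hcon hη2) (hall j0)
    exact lt_irrefl _ hlt
  exact key5.trans_le hfin

end L

end Pool.Agent.helper56.P3
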